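import Pool.Agent.H32.FibDefs
import Pool.Agent.H37.CI

namespace Pool.Agent.Results.MP_b63848_al.Decidable

open Pool.Agent.H32.Fib Pool.Agent.H37 Relation

abbrev Pr := List ℕ × List ℕ

def h (l : List Pr) : List ℕ := (l.map Prod.fst).flatten
def g (l : List Pr) : List ℕ := (l.map Prod.snd).flatten

theorem h_app (a b : List Pr) : h (a ++ b) = h a ++ h b := by simp [h]
theorem g_app (a b : List Pr) : g (a ++ b) = g a ++ g b := by simp [g]
theorem h_cons (a : Pr) (b : List Pr) : h (a :: b) = a.1 ++ h b := by simp [h]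
theorem g_cons (a : Pr) (b : List Pr) : g (a :: b) = a.2 ++ g b := by simp [g]

variable {n m : ℕ} {X : List Pr}

theorem plus_app {u v : List ℕ} (hu : u ∈ Plus n) (hv : v ∈ Plus n) : u ++ v ∈ Plus n :=
  ⟨by simp [hu.1], fun a ha => (List.mem_append.1 ha).elim (hu.2 a) (hv.2 a)⟩

theorem gen_app {u v u' v' : List ℕ} (a : (u, v) ∈ Gen X) (b : (u', v') ∈ Gen X) :
    (u ++ u', v ++ v') ∈ Gen X := by
  obtain ⟨l, a1, a2, a3⟩ := a
  obtain ⟨l', b1, b2, b3⟩ := b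
  cases a3; cases b3
  exact ⟨l ++ l', by simp [a1], fun x hx => (List.mem_append.1 hx).elim (a2 x) (b2 x), by simp⟩

theorem gen_plus (S : Subdirect n m X) {u v : List ℕ} (a : (u, v) ∈ Gen X) :
    u ∈ Plus n ∧ v ∈ Plus m := by
  obtain ⟨l, a1, a2, a3⟩ := a
  cases a3
  obtain ⟨x, l, rfl⟩ := List.exists_cons_of_ne_nil a1
  have := S.1 x (a2 x (by simp))
  refine ⟨⟨by simp [this.1.1], fun a ha => ?_⟩, by simp [this.2.1], fun a ha => ?_⟩
  · obtain ⟨_, hw, ha⟩ := List.mem_flatten.1 ha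
    obtain ⟨y, hy, rfl⟩ := List.mem_map.1 hw
    exact (S.1 y (a2 y hy)).1.2 a ha
  · obtain ⟨_, hw, ha⟩ := List.mem_flatten.1 ha
    obtain ⟨y, hy, rfl⟩ := List.mem_map.1 hw
    exact (S.1 y (a2 y hy)).2.2 a ha

def Dif (X : List Pr) : Prop :=
  ∀ u v u' v', (u, v) ∈ Gen X → (u', v) ∈ Gen X → (u', v') ∈ Gen X → (u, v') ∈ Gen X

instance : Semigroup (Plus n) where
  mul a b := ⟨a.1 ++ b.1, plus_app a.2 b.2⟩
  mul_assoc _ _ _ := Subtype.ext (List.append_assoc _ _ _)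

theorem fiber_iff (hn : 0 < n) (S : Subdirect n m X) : Fiber n m (Gen X) ↔ Dif X := by
  classical
  constructor
  · rintro ⟨Q, _, φ, ψ, -, -, e⟩ u v u' v' a b c
    rw [e] at a b c ⊢
    exact ⟨a.1, c.2.1, a.2.2.trans (b.2.2.symm.trans c.2.2)⟩
  intro D
  let c : Con (Plus n) :=
    { r := fun a b => ∃ v, (a.1, v) ∈ Gen X ∧ (b.1, v) ∈ Gen X
      iseqv := ⟨fun a => by obtain ⟨v, hv⟩ := S.2.1 a.1 a.2; exact ⟨v, hv, hv⟩,
        fun ⟨v, a, b⟩ => ⟨v, b, a⟩, fun ⟨_, a, b⟩ ⟨v', a', b'⟩ => ⟨v', D _ _ _ _ a b a', b'⟩⟩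
      mul' := fun ⟨_, a, b⟩ ⟨_, a', b'⟩ => ⟨_, gen_app a a', gen_app b b'⟩ }
  let φ : List ℕ → c.Quotient := fun u =>
    if hu : u ∈ Plus n then (⟨u, hu⟩ : Plus n) else (⟨[0], by simp, by simpa using hn⟩ : Plus n)
  have e1 : ∀ u (hu : u ∈ Plus n), φ u = (⟨u, hu⟩ : Plus n) := fun u hu => dif_pos hu
  have e2 : ∀ u u' v, (u, v) ∈ Gen X → (φ u' = φ u ∧ u' ∈ Plus n ↔ (u', v) ∈ Gen X) := by
    intro u u' v a
    constructor
    · rintro ⟨b, hu⟩
      rw [e1 _ hu, e1 _ (gen_plus S a).1, Con.eq] at b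
      obtain ⟨w, b1, b2⟩ := b
      exact D _ _ _ _ b1 b2 a
    · intro b
      rw [e1 _ (gen_plus S b).1, e1 _ (gen_plus S a).1, Con.eq]
      exact ⟨⟨v, b, a⟩, (gen_plus S b).1⟩
  have hφ : ∀ u ∈ Plus n, ∀ v ∈ Plus n, φ (u ++ v) = φ u * φ v := fun u hu v hv => by
    rw [e1 _ hu, e1 _ hv, e1 _ (plus_app hu hv)]; rfl
  have sφ : ∀ q, ∃ u ∈ Plus n, φ u = q := fun q => Con.induction_on q fun a => ⟨a.1, a.2, e1 _ _⟩
  choose! k hk using S.2.2
  refine ⟨_, inferInstance, φ, fun v => φ (k v), ⟨hφ, sφ⟩, ⟨fun u hu v hv => ?_, fun q => ?_⟩, ?_⟩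
  · rw [← hφ _ (gen_plus S (hk u hu)).1 _ (gen_plus S (hk v hv)).1]
    exact ((e2 _ _ _ (gen_app (hk u hu) (hk v hv))).2 (hk _ (plus_app hu hv))).1
  · obtain ⟨u, hu, rfl⟩ := sφ q
    obtain ⟨v, hv⟩ := S.2.1 u hu
    exact ⟨v, (gen_plus S hv).2, ((e2 _ _ _ hv).2 (hk v (gen_plus S hv).2)).1⟩
  · ext ⟨u, v⟩
    exact ⟨fun a => ⟨(gen_plus S a).1, (gen_plus S a).2,
      ((e2 _ _ _ (hk v (gen_plus S a).2)).2 a).1⟩, fun ⟨a, b, e⟩ => (e2 _ _ _ (hk v b)).1 ⟨e, a⟩⟩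

theorem W1 : ∀ (l : List Pr) (z y : List ℕ), (∀ x ∈ l, x.2 ≠ []) → g l = z ++ y →
    ∃ l2 l3 y', l = l2 ++ l3 ∧ g l2 = z ++ y' ∧ y = y' ++ g l3 ∧ l2.length ≤ z.length := by
  intro l
  induction l with
  | nil =>
    intro z y _ e
    obtain ⟨rfl, rfl⟩ := List.append_eq_nil_iff.1 e.symm
    exact ⟨[], [], [], rfl, rfl, rfl, le_rfl⟩
  | cons a l ih =>
    intro z y hl e
    by_cases hz : z = []
    · subst hz
      exact ⟨[], a :: l, [], rfl, rfl, e.symm, le_rfl⟩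
    rw [g_cons] at e
    rcases List.append_eq_append_iff.1 e with ⟨c, rfl, e'⟩ | ⟨c, e', rfl⟩
    · obtain ⟨l2, l3, y', rfl, a1, a2, a3⟩ := ih c y (fun x hx => hl x (by simp [hx])) e'
      have := List.length_pos_iff.2 (hl a (by simp))
      exact ⟨a :: l2, l3, y', rfl, by rw [g_cons, a1]; simp, a2, by simp; omega⟩
    · exact ⟨[a], l, c, rfl, by simp [g, e'], rfl, List.length_pos_iff.2 hz⟩

theorem W2 : ∀ (l : List Pr) (x p y : List ℕ), (∀ x ∈ l, x.2 ≠ []) → g l = x ++ p ++ y →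
    ∃ l1 l2 l3 x' y', l = l1 ++ l2 ++ l3 ∧ x = g l1 ++ x' ∧ y = y' ++ g l3 ∧
      g l2 = x' ++ p ++ y' ∧ l2.length ≤ p.length + 1 := by
  intro l
  induction l with
  | nil =>
    intro x p y _ e
    exact ⟨[], [], [], x, y, rfl, rfl, by simp [g], e, by simp⟩
  | cons a l ih =>
    intro x p y hl e
    have hl' : ∀ x ∈ l, x.2 ≠ [] := fun x hx => hl x (by simp [hx])
    rw [g_cons, List.append_assoc] at e
    rcases List.append_eq_append_iff.1 e with ⟨c, rfl, e'⟩ | ⟨c, e', e''⟩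
    · obtain ⟨l1, l2, l3, x', y', rfl, rfl, a2, a3, a4⟩ := ih c p y hl' (by simpa using e')
      exact ⟨a :: l1, l2, l3, x', y', rfl, by simp [g_cons], a2, a3, a4⟩
    · rcases List.append_eq_append_iff.1 e'' with ⟨d, rfl, rfl⟩ | ⟨d, rfl, e3⟩
      · exact ⟨[], [a], l, x, d, rfl, rfl, rfl, by simp [g, e'], by simp⟩
      · obtain ⟨l2, l3, y', rfl, a1, a2, a3⟩ := W1 l d y hl' e3
        exact ⟨[], a :: l2, l3, x, y', rfl, rfl, a2, by rw [g_cons, a1, e']; simp, by simp; omega⟩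

def allL (X : List Pr) (k : ℕ) : List (List Pr) :=
  (fun S => [] :: X.flatMap fun a => S.map fun l => a :: l)^[k] [[]]

theorem mem_allL (k : ℕ) : ∀ l, l ∈ allL X k ↔ l.length ≤ k ∧ ∀ a ∈ l, a ∈ X := by
  induction k with
  | zero => rintro (_ | _) <;> simp [allL]
  | succ k ih =>
    intro l
    unfold allL at ih ⊢
    rw [Function.iterate_succ_apply']
    rcases l with _ | ⟨a, l⟩
    · simp
    · simp [ih, and_left_comm]

def memR (X : List Pr) (u v : List ℕ) : Bool :=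
  (allL X u.length).any fun l => l != [] && h l == u && g l == v

theorem len_le {l : List Pr} (hl : ∀ x ∈ l, x.1 ≠ []) : l.length ≤ (h l).length := by
  induction l with
  | nil => simp
  | cons a l ih =>
    have := List.length_pos_iff.2 (hl a (by simp))
    have := ih fun x hx => hl x (by simp [hx])
    rw [h_cons]; simp; omega

theorem memR_iff (S : Subdirect n m X) (u v : List ℕ) : memR X u v = true ↔ (u, v) ∈ Gen X := by
  simp only [memR, List.any_eq_true, mem_allL, Bool.and_eq_true, bne_iff_ne, beq_iff_eq]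
  constructor
  · rintro ⟨l, ⟨-, a⟩, ⟨b, rfl⟩, rfl⟩
    exact ⟨l, b, a, rfl⟩
  · rintro ⟨l, a, b, e⟩
    cases e
    exact ⟨l, ⟨len_le fun x hx => (S.1 x (b x hx)).1.1, b⟩, ⟨a, rfl⟩, rfl⟩

def chk (X : List Pr) : Bool :=
  (allL X (h X).length).all fun l1 => (allL X (h X).length).all fun l2 =>
    l1 == [] || h l1 != h l2 || (allL X ((g l1).length + 1)).all fun l =>
      (List.range ((g l).length + 1)).all fun i =>
        g l != (g l).take i ++ g l1 ++ (g l).drop (i + (g l1).length) ||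
          memR X (h l) ((g l).take i ++ g l2 ++ (g l).drop (i + (g l1).length))

def Bs (X : List Pr) (p p' : List ℕ) : Prop := ∃ l1 l2, l1 ∈ allL X (h X).length ∧
  l2 ∈ allL X (h X).length ∧ l1 ≠ [] ∧ h l1 = h l2 ∧ p = g l1 ∧ p' = g l2

theorem chk_iff (S : Subdirect n m X) : chk X = true ↔ ∀ p p', Bs X p p' →
    ∀ l ∈ allL X (p.length + 1), ∀ x y, g l = x ++ p ++ y → (h l, x ++ p' ++ y) ∈ Gen X := by
  simp only [chk, List.all_eq_true, Bool.or_eq_true, beq_iff_eq, bne_iff_ne, memR_iff S,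
    List.mem_range]
  constructor
  · rintro H _ _ ⟨l1, l2, a1, a2, a3, a4, rfl, rfl⟩ l hl x y e
    have := ((H l1 a1 l2 a2).resolve_left (by simp [a3, a4])) l hl x.length (by simp [e])
    rw [e] at this
    simpa [List.drop_append, List.drop_eq_nil_of_le (Nat.le_add_right _ _)] using this
  · intro H l1 a1 l2 a2
    by_cases a3 : l1 = [] ∨ h l1 ≠ h l2
    · exact Or.inl a3
    push Not at a3
    refine Or.inr fun l hl i _ => or_iff_not_imp_left.2 fun e => ?_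
    exact H _ _ ⟨l1, l2, a1, a2, a3.1, a3.2, rfl, rfl⟩ l hl _ _ (not_not.1 e)

theorem nil_of (S : Subdirect n m X) {l : List Pr} (hl : ∀ x ∈ l, x ∈ X) (e : h l = []) : l = [] := by
  have := len_le fun x hx => (S.1 x (hl x hx)).1.1
  rw [e] at this
  exact List.length_eq_zero_iff.1 (by simpa using this)

theorem ctx {u v : List ℕ} (a : (u, v) ∈ Gen X) {l1 l3 : List Pr} (h1 : ∀ x ∈ l1, x ∈ X)
    (h3 : ∀ x ∈ l3, x ∈ X) : (h l1 ++ u ++ h l3, g l1 ++ v ++ g l3) ∈ Gen X := by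
  obtain ⟨l, a1, a2, a3⟩ := a
  cases a3
  refine ⟨l1 ++ l ++ l3, by simp [a1], fun x hx => ?_, by simp [h, g]⟩
  simp only [List.mem_append] at hx
  rcases hx with (hx | hx) | hx
  exacts [h1 x hx, a2 x hx, h3 x hx]

theorem dif_iff (S : Subdirect n m X) : chk X = true ↔ Dif X := by
  rw [chk_iff S]
  constructor
  swap
  · rintro D _ _ ⟨l1, l2, a1, a2, a3, a4, rfl, rfl⟩ l hl x y e
    rw [mem_allL] at a1 a2 hl
    have b1 : (h l1, g l1) ∈ Gen X := ⟨l1, a3, a1.2, rfl⟩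
    have b2 : (h l1, g l2) ∈ Gen X := ⟨l2, fun e => a3 (nil_of S a1.2 (by rw [a4, e]; rfl)), a2.2,
      by rw [a4]; rfl⟩
    have b0 : (h l, g l) ∈ Gen X := ⟨l, fun e' => (gen_plus S b1).2.1 (by
      rw [e'] at e
      simpa using (List.append_eq_nil_iff.1 (List.append_eq_nil_iff.1 e.symm).1).2), hl.2, rfl⟩
    have pre : ∀ z : List ℕ, (∀ a ∈ z, a ∈ g l) → ∃ k, (∀ x ∈ k, x ∈ X) ∧ z = g k := fun z hz => by
      by_cases h0 : z = []
      · exact ⟨[], by simp, h0⟩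
      obtain ⟨u, k, -, c, c'⟩ := S.2.2 z ⟨h0, fun a ha => (gen_plus S b0).2.2 a (hz a ha)⟩
      exact ⟨k, c, (Prod.mk.inj c').2⟩
    obtain ⟨k1, c1, rfl⟩ := pre x fun a ha => by simp [e, ha]
    obtain ⟨k3, c3, rfl⟩ := pre y fun a ha => by simp [e, ha]
    exact D _ _ _ _ (e ▸ b0) (ctx b1 c1 c3) (ctx b2 c1 c3)
  intro H
  let Rw : List ℕ → List ℕ → Prop := fun v v' => ∃ x y p p', Bs X p p' ∧ v = x ++ p ++ y ∧
    v' = x ++ p' ++ y
  have A : ∀ u v v', (u, v) ∈ Gen X → ReflTransGen Rw v v' → (u, v') ∈ Gen X := by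
    intro u v v' a r
    induction r with
    | refl => exact a
    | tail _ r ih =>
      obtain ⟨x, y, p, p', b, e, rfl⟩ := r
      obtain ⟨l, a1, a2, a3⟩ := ih
      obtain ⟨rfl, a4⟩ := Prod.mk.inj a3
      obtain ⟨l1, l2, l3, x', y', rfl, rfl, rfl, c1, c2⟩ := W2 l x p y
        (fun x hx => (S.1 x (a2 x hx)).2.1) (a4.symm.trans e)
      have := ctx (H p p' b l2 ((mem_allL _ _).2 ⟨c2, fun x hx => a2 x (by simp [hx])⟩) _ _ c1)
        (l1 := l1) (l3 := l3) (fun x hx => a2 x (by simp [hx])) fun x hx => a2 x (by simp [hx])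
      simpa [h] using this
  have : ∀ a < n, ∃ v, ([a], v) ∈ X := fun a ha => by
    obtain ⟨v, l, a1, a2, a3⟩ := S.2.1 [a] ⟨by simp, by simpa using ha⟩
    obtain ⟨x, l, rfl⟩ := List.exists_cons_of_ne_nil a1
    have e : [a] = x.1 ++ h l := by simpa [h] using (Prod.mk.inj a3).1
    have hx := a2 x (by simp)
    rcases List.singleton_eq_append_iff.1 e with ⟨e1, -⟩ | ⟨e1, -⟩
    · exact absurd e1 (S.1 x hx).1.1
    · exact ⟨x.2, e1 ▸ hx⟩
  choose! c hc using this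
  let cl : List ℕ → List Pr := fun u => u.map fun a => ([a], c a)
  have hcl : ∀ u, h (cl u) = u := fun u => by induction u <;> simp_all [h, cl]
  have B : ∀ l : List Pr, (∀ x ∈ l, x ∈ X) → ∀ z, ReflTransGen Rw (z ++ g l) (z ++ g (cl (h l))) ∧
      ReflTransGen Rw (z ++ g (cl (h l))) (z ++ g l) := by
    intro l
    induction l with
    | nil => exact fun _ _ => ⟨.refl, .refl⟩
    | cons a l ih =>
      intro hl z
      have ha := hl a (by simp)
      obtain ⟨i1, i2⟩ := ih (fun x hx => hl x (by simp [hx])) (z ++ a.2)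
      have hlen : a.1.length ≤ (h X).length :=
        (List.sublist_flatten_of_mem (List.mem_map.2 ⟨a, ha, rfl⟩)).length_le
      have hp := List.length_pos_iff.2 (S.1 a ha).1.1
      have m1 : [a] ∈ allL X (h X).length := (mem_allL _ _).2 ⟨by simp; omega, by simpa using ha⟩
      have m2 : cl a.1 ∈ allL X (h X).length := (mem_allL _ _).2 ⟨by simpa [cl] using hlen, by
        intro x hx
        obtain ⟨b, hb, rfl⟩ := List.mem_map.1 hx
        exact hc b ((S.1 a ha).1.2 b hb)⟩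
      have e : g (cl (h (a :: l))) = g (cl a.1) ++ g (cl (h l)) := by simp [h_cons, cl, g_app]
      have e1 : h [a] = h (cl a.1) := by rw [hcl]; simp [h]
      rw [e, g_cons, ← List.append_assoc, ← List.append_assoc]
      exact ⟨i1.tail ⟨z, _, a.2, _, ⟨_, _, m1, m2, by simp, e1, by simp [g], rfl⟩, rfl, rfl⟩,
        ReflTransGen.head ⟨z, _, _, a.2, ⟨_, _, m2, m1, by simpa [cl] using (S.1 a ha).1.1,
          e1.symm, rfl, by simp [g]⟩, rfl, rfl⟩ i2⟩
  rintro u v u' v' a ⟨l, -, b2, b3⟩ ⟨l', -, c2, c3⟩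
  obtain ⟨e1, rfl⟩ := Prod.mk.inj b3
  obtain ⟨e2, rfl⟩ := Prod.mk.inj c3
  have e : h l = h l' := e1.symm.trans e2
  have r1 := (B l b2 []).1
  rw [e] at r1
  exact A _ _ _ a (r1.trans (B l' c2 []).2)

section
variable {α : Type} [Primcodable α]

@[fun_prop] theorem ci_h {l : α → List Pr} (hl : CI ∅ l) : CI ∅ fun a => h (l a) := by
  unfold h; fun_prop
@[fun_prop] theorem ci_g {l : α → List Pr} (hl : CI ∅ l) : CI ∅ fun a => g (l a) := by
  unfold g; fun_prop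
@[fun_prop] theorem ci_allL {l : α → List Pr} {k : α → ℕ} (hl : CI ∅ l) (hk : CI ∅ k) :
    CI ∅ fun a => allL (l a) (k a) := by
  unfold allL; fun_prop
@[fun_prop] theorem ci_memR {l : α → List Pr} {u v : α → List ℕ} (hl : CI ∅ l) (hu : CI ∅ u)
    (hv : CI ∅ v) : CI ∅ fun a => memR (l a) (u a) (v a) := by
  unfold memR; fun_prop

end

theorem result : ∃ f : ℕ × ℕ × List (List ℕ × List ℕ) → Bool, Computable f ∧
    ∀ n m X, 0 < n → 0 < m → Subdirect n m X → (f (n, m, X) = true ↔ Fiber n m (Gen X)) := by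
  have : CI ∅ fun p : ℕ × ℕ × List (List ℕ × List ℕ) => chk p.2.2 := by
    unfold chk; fun_prop
  exact ⟨_, this.computable, fun n m X hn _ S => (dif_iff S).trans (fiber_iff hn S).symm⟩

end Pool.Agent.Results.MP_b63848_al.Decidable
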